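import Pool.Agent.N13.PL.All

/-!
# The Singer conjecture for reflection manifolds of dimensions five and six

Let the flag complex `L` of the finite graph `G` be a real homology manifold with the homology of the `(n-1)`-sphere
(`HSph n G`). If `L` is a combinatorial sphere, the right-angled Coxeter group `W G` acts on a contractible
`n`-manifold `Σ` (the Davis complex), and its quotients `M = Σ / K` by the torsion-free subgroups `K` of finite index
are closed aspherical `n`-manifolds, with `b_i^(2)(M) = [W G : K] b_i^(2)(W G)`. For `n ≤ 4` the Singer conjecture is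
known for them (Davis and Okun). We reduce the conjecture for `n = 5` and `n = 6` to one `ℓ²`-Betti number of a part
of `L`: only those vertices matter whose links `lk v` have `χ(W_(lk v)) ≠ 0`. (`χ(W_(lk v)) = γ_2(lk v) / 16` for
`n = 5`, so it is zero if and only if `γ_2(lk v) = 0`.)

Besides the rule for the Euler characteristic (`Pool/Agent/N13/EU`) the proof uses that every flag 2-sphere can be
contracted to the octahedron through flag 2-spheres (`Pool/Agent/N13/PL`).
-/

set_option autoImplicit false

namespace Pool.Agent.Results.MP_f80465_gt.DimensionsFiveAndSix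

open Pool.Agent.W907.SG Pool.Agent.W907.SM Pool.Agent.TH652.Above Pool.Agent.Y132.SI Pool.Agent.N13.EU
open Pool.Agent.N13.PL

/-- Sufficient conditions for the vanishing of `b_3^(2)` of the right-angled Coxeter group of the full subcomplex
spanned by the set `U`: at most 8 vertices, or no triangle, or a numbering of the vertices such that each has at most
5 neighbours in `U` with smaller numbers (for example if `U` spans a planar graph), or a member of the class
`ER 5`. -/
def Small {V : Type} (G : SimpleGraph V) (U : Finset V) : Prop :=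
  U.card ≤ 8 ∨ (∀ S : Finset V, G.IsClique (S : Set V) → S ⊆ U → S.card ≤ 2) ∨
    (∃ r : V → ℕ, Function.Injective r ∧ ∀ v ∈ U, {u | u ∈ U ∧ G.Adj v u ∧ r u < r v}.ncard ≤ 5) ∨
    ER 5 (G.induce (U : Set V))

theorem van_of_small {V : Type} [Fintype V] [LinearOrder V] {G : SimpleGraph V} {U : Finset V}
    (h : Small G U) : L2Van (G.induce (U : Set V)) 3 := by
  refine suff 2 U ?_
  rcases h with h | h | ⟨r, hr, h⟩ | h
  · exact Or.inl (by omega)
  · exact Or.inr (Or.inl h)
  · exact Or.inr (Or.inr (Or.inl ⟨by norm_num, r, hr, fun v hv => by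
      have := h v hv
      omega⟩))
  · exact Or.inr (Or.inr (Or.inr (Or.inl h)))

/-- **Result.** (1) Let `L` be a flag homology sphere of dimension 4 and `U` the set of the vertices `v` with
`χ(W_(lk v)) ≠ 0`. The following are equivalent: all `ℓ²`-Betti numbers of `W` vanish (the Singer conjecture);
`b_3^(2)(W_U) = 0`; `b_i^(2)(W_A) = 0` for all sets `A` of vertices and all `i ≥ 3`. This is the case if `U` is
`Small`. If `∑_v χ(W_(lk v)) = 0` (that is `γ_2(L) = 0`) then all `ℓ²`-Betti numbers of `W` vanish and moreover
`b_i^(2)(W_A) = 0` for all sets `A` of vertices and all `i ≥ 2`.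
(2) Let `L` be a flag homology sphere of dimension 5 such that for each vertex `v` and the set `U` of the vertices `w`
of `lk v` with `χ(W_(lk {v, w})) ≠ 0` the set `U` is `Small`, or `b_3^(2)(W_U) = 0`. Then `b_i^(2)(W) = 0` for all
`i ≠ 3`, `χ(W) ≤ 0`, `b_i^(2)(W_A) = 0` for all sets `A` of vertices and all `i ≥ 4`, and `χ(W) = 0` if and only if
`b_3^(2)(W_A) = 0` for all `A`; for each `ε > 0` there is a finite set `E` of nontrivial elements of `W` such that
for all subgroups `K` of finite index containing no conjugate of an element of `E` and all `i` the `i`-th real Betti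
number of `K` differs from `c_i [W : K]` by at most `ε [W : K]`, where `c_3 = - χ(W)` and `c_i = 0` for `i ≠ 3`.
(3) Let `L` be a flag homology sphere of dimension 3. Then `χ(W) = 0` if and only if `b_2^(2)(W_A) = 0` for all sets
`A` of vertices.
(4) On the last condition in `Small`: the class `ER n`, which is closed under full subcomplexes, joins, gluings, vertex
splittings and other operations, contains all the flag homology spheres of dimension `n - 1` for `n = 3` and
`n = 4`. -/
theorem result :
    (∀ (V : Type) [Fintype V] [LinearOrder V] (G : SimpleGraph V), HSph 5 G →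
      ∀ U : Finset V, (∀ v, v ∈ U ↔ chiL G {v} ≠ 0) →
      ((∀ i : ℕ, L2Van G i) ↔ L2Van (G.induce (U : Set V)) 3) ∧
      ((∀ i : ℕ, L2Van G i) ↔ ∀ (A : Finset V) (i : ℕ), 3 ≤ i → L2Van (G.induce (A : Set V)) i) ∧
      (Small G U → ∀ i : ℕ, L2Van G i) ∧
      (∑ v : V, chiL G {v} = 0 →
        (∀ i : ℕ, L2Van G i) ∧ ∀ (A : Finset V) (i : ℕ), 2 ≤ i → L2Van (G.induce (A : Set V)) i)) ∧
    (∀ (V : Type) [Fintype V] [LinearOrder V] (G : SimpleGraph V), HSph 6 G →
      (∀ (v : V) (U : Finset V), (∀ w, w ∈ U ↔ G.Adj v w ∧ chiL G {w, v} ≠ 0) →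
        Small G U ∨ L2Van (G.induce (U : Set V)) 3) →
      (∀ i : ℕ, i ≠ 3 → L2Van G i) ∧ chiW G ≤ 0 ∧
      (∀ (A : Finset V) (i : ℕ), 4 ≤ i → L2Van (G.induce (A : Set V)) i) ∧
      (chiW G = 0 ↔ ∀ A : Finset V, L2Van (G.induce (A : Set V)) 3) ∧
      ∀ ε : ℝ, 0 < ε → ∃ E : Finset (W G), (1 : W G) ∉ E ∧
        ∀ K : Subgroup (W G), K.FiniteIndex → (∀ g ∈ E, ∀ x : W G, x * g * x⁻¹ ∉ K) → ∀ i : ℕ,
          |(Module.finrank ℝ (HInv G K i) : ℝ) - (if i = 3 then -(chiW G : ℝ) else 0) * K.index| ≤
            ε * K.index) ∧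
    (∀ (V : Type) [Fintype V] [LinearOrder V] (G : SimpleGraph V), HSph 4 G →
      (chiW G = 0 ↔ ∀ A : Finset V, L2Van (G.induce (A : Set V)) 2)) ∧
    (∀ (V : Type) [Fintype V] [LinearOrder V] (G : SimpleGraph V), (HSph 3 G → ER 3 G) ∧ (HSph 4 G → ER 4 G)) := by
  refine ⟨?_, ?_, ?_, fun V _ _ G => ⟨three V G, er_four three⟩⟩
  · intro V _ _ G hS U hU
    obtain ⟨h1, h2⟩ := five three hS
    have h3 := h1.trans (h2 U hU)
    refine ⟨h3, ⟨fun h A i hi => all_finsets (h1.1 h) A i (by omega), fun h => h3.2 (h U 3 le_rfl)⟩,
      fun h => h3.2 (van_of_small h), five_zero three hS⟩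
  · intro V _ _ G hS hyp
    have hH : Hered 6 G := (six three hS).2 fun v U hU => (hyp v U hU).elim van_of_small id
    have h : ∀ i : ℕ, 2 * i ≠ 6 → L2Van G i := fun i hi => singer_hered hS hH i hi
    refine ⟨fun i hi => h i (by omega), ?_, fun A i hi => all_finsets hH A i (by omega), ?_, ?_⟩
    · have h1 := chi_sign (m := 3) G fun i hi => h i (by omega)
      have h2 : (-1 : ℚ) ^ 3 * chiW G = - chiW G := by ring
      rw [h2] at h1
      linarith
    · rw [even_zero (d := 3) hS hH]
      constructor
      · intro h1 A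
        exact h1 A 3 le_rfl
      · intro h1 A i hi
        rcases Nat.lt_or_ge 3 i with h2 | h2
        · exact all_finsets hH A i (by omega)
        · have : i = 3 := by omega
          subst this
          exact h1 A
    · intro ε hε
      obtain ⟨E, hE1, hE2⟩ := growth_free G 6 h ε hε
      refine ⟨E, hE1, fun K hK hc i => ?_⟩
      have h1 := hE2 K hK hc i
      by_cases hi : i = 3
      · subst hi
        rw [if_pos (by norm_num)] at h1
        rw [if_pos rfl]
        have h2 : (-1 : ℝ) ^ 3 * (chiW G : ℝ) = - (chiW G : ℝ) := by ring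
        rwa [h2] at h1
      · rw [if_neg (by omega)] at h1
        rwa [if_neg hi]
  · intro V _ _ G hS
    have hH : Hered 4 G := hered_four three (by norm_num) hS
    rw [even_zero (d := 2) hS hH]
    constructor
    · intro h1 A
      exact h1 A 2 le_rfl
    · intro h1 A i hi
      rcases Nat.lt_or_ge 2 i with h2 | h2
      · exact all_finsets hH A i (by omega)
      · have : i = 2 := by omega
        subst this
        exact h1 A

end Pool.Agent.Results.MP_f80465_gt.DimensionsFiveAndSix
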