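import Pool.Agent.N309.LO.Morse5

/-!
# A Morse inequality for `L²`-Betti numbers and height functions with values in an ordered `G`-set

Let `G` act freely and cocompactly on a simplicial complex `Y`, for example by deck transformations
on the universal covering of a triangulated closed aspherical manifold. Let `G` act also on a
totally ordered set `X` by order-preserving bijections, and let `h` be an equivariant map of the
vertices of `Y` to `X` which is injective on the simplices. Then the `k`-th `L²`-Betti number of `Y`
is at most the sum over the orbits of vertices `v` of the dimensions of the reduced homology in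
degree `k - 1` of the descending links of `v`. For `X = ℤ` or `ℝ` with `G` acting by translations
this is the Morse inequality for circle-valued Morse functions and closed one-forms; here `X` is
arbitrary, for example `G` itself if `G` is left orderable, or the leaf space of a foliation of
codimension one whose lift to the universal covering has leaf space `ℝ`.

Outline. Filter the `ℓ²`-chains by the level of their highest vertex. The operator inequality
`N309.LO.level_le` bounds the dimension of the kernel of the boundary operator by that of its graded
part, for every totally ordered set of levels which is preserved by `G` (in contrast to the case of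
`ℤ` there is no filtration by a sequence of invariant subspaces; the proof compares ranks by means
of the wandering subspaces of the filtration). The graded complex is the direct sum, over all
vertices, of the shifted augmented chain complexes of the descending links.
-/

set_option autoImplicit false

universe u v w

namespace Pool.Agent.Results.MP_f80465_gt.OrderedMorseInequality

/-- `Y` is a simplicial complex: a set of nonempty finite sets of vertices (the simplices), closed
under passing to nonempty subsets. -/
structure IsComplex {V : Type v} (Y : Set (Finset V)) : Prop where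
  nonempty : ∀ σ ∈ Y, σ.Nonempty
  down : ∀ σ ∈ Y, ∀ τ ⊆ σ, τ.Nonempty → τ ∈ Y

/-- `G` acts on the complex `Y` by simplicial automorphisms, freely on the set of vertices and with
finitely many orbits of simplices. -/
structure IsFreeCocompact (G : Type u) {V : Type v} [Group G] [MulAction G V] [DecidableEq V]
    (Y : Set (Finset V)) : Prop where
  inv : ∀ (g : G), ∀ σ ∈ Y, σ.image (fun v => g • v) ∈ Y
  free : ∀ (g : G) (v : V), {v} ∈ Y → g • v = v → g = 1
  cocompact : ∃ R : Finset (Finset V), ∀ σ ∈ Y, ∃ g : G, σ.image (fun v => g • v) ∈ R

/-- `h` is an equivariant map of the vertices of `Y` to the totally ordered set `X`, on which `G`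
acts by order-preserving bijections, and `h` is injective on every simplex of `Y`. -/
structure IsHeight (G : Type u) {V : Type v} {X : Type w} [Group G] [MulAction G V]
    [LinearOrder X] [MulAction G X] (Y : Set (Finset V)) (h : V → X) : Prop where
  order : ∀ (g : G) (a b : X), a ≤ b → g • a ≤ g • b
  equiv : ∀ (g : G) (v : V), h (g • v) = g • h v
  inj : ∀ σ ∈ Y, ∀ u ∈ σ, ∀ v ∈ σ, h u = h v → u = v

section chains
variable {V : Type v} {X : Type w} [DecidableEq V] [LinearOrder X]

/-- The sign of `w` in the simplex with the vertices `τ` and `w`: `-1` to the power of the number of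
the vertices below `w`. Simplices are oriented by the order of the heights of their vertices. -/
noncomputable def sign (h : V → X) (w : V) (τ : Finset V) : ℂ :=
  (-1) ^ (τ.filter (fun u => h u < h w)).card

/-- The boundary of the chain `c` at `τ`: the sum of the signed coefficients of the simplices with
one more vertex which contain `τ`. -/
noncomputable def boundary (h : V → X) (c : Finset V → ℂ) (τ : Finset V) : ℂ :=
  ∑ᶠ w : V, if w ∈ τ then 0 else sign h w τ * c (insert w τ)

/-- The coboundary of the chain `c` at `κ`: the sum of the signed coefficients of the faces of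
`κ`. -/
noncomputable def coboundary (h : V → X) (c : Finset V → ℂ) (κ : Finset V) : ℂ :=
  ∑ w ∈ κ, sign h w (κ.erase w) * c (κ.erase w)

/-- The square-summable harmonic `k`-chains of `Y`: square-summable functions on the `k`-simplices
whose boundary and coboundary are zero. They represent the reduced `ℓ²`-homology. -/
def harmonic (Y : Set (Finset V)) (h : V → X) (k : ℕ) : Set (lp (fun _ : Finset V => ℂ) 2) :=
  {f | (∀ σ, f σ ≠ 0 → σ ∈ Y ∧ σ.card = k + 1) ∧ (∀ τ ∈ Y, boundary h f τ = 0) ∧
    (∀ κ ∈ Y, coboundary h f κ = 0)}

/-- The simplices of the descending link of `v`, together with the empty set: the sets `τ` of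
vertices lower than `v` such that `τ` and `v` span a simplex of `Y`. -/
def descendingLink (Y : Set (Finset V)) (h : V → X) (v : V) : Set (Finset V) :=
  {τ | v ∉ τ ∧ insert v τ ∈ Y ∧ ∀ u ∈ τ, h u < h v}

/-- `c` is an augmented chain of the descending link of `v` with complex coefficients, on the
simplices with `k` vertices. -/
def IsLinkChain (Y : Set (Finset V)) (h : V → X) (v : V) (k : ℕ) (c : Finset V → ℂ) : Prop :=
  ∀ τ, c τ ≠ 0 → τ ∈ descendingLink Y h v ∧ τ.card = k

/-- The reduced homology in degree `k - 1` with complex coefficients of the descending link of `v`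
has dimension at most `d`: there are `d` chains such that every cycle is the sum of a combination of
them and of a boundary. -/
def LinkHomologyLE (Y : Set (Finset V)) (h : V → X) (v : V) (k d : ℕ) : Prop :=
  ∃ c : Fin d → Finset V → ℂ, ∀ z : Finset V → ℂ, IsLinkChain Y h v k z →
    (∀ τ, boundary h z τ = 0) → ∃ (a : Fin d → ℂ) (b : Finset V → ℂ),
      IsLinkChain Y h v (k + 1) b ∧ ∀ τ, z τ = ∑ i, a i * c i τ + boundary h b τ

end chains

/-- `S` is a set of representatives of the orbits of the `k`-simplices of `Y`. -/
def IsRepresentatives (G : Type u) {V : Type v} [Group G] [MulAction G V] [DecidableEq V]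
    (Y : Set (Finset V)) (k : ℕ) (S : Finset (Finset V)) : Prop :=
  (∀ σ ∈ S, σ ∈ Y ∧ σ.card = k + 1) ∧
  (∀ σ ∈ Y, σ.card = k + 1 → ∃ g : G, σ.image (fun v => g • v) ∈ S) ∧
  ∀ σ ∈ S, ∀ τ ∈ S, ∀ g : G, σ.image (fun v => g • v) = τ → σ = τ

open Classical in
/-- The `k`-th `L²`-Betti number, computed with the set `S` of representatives of the orbits of the
`k`-simplices: the trace of the projection to the harmonic chains, that is, the sum over `S` of one
minus the squared distance of the basis vector to the space of harmonic chains. -/
noncomputable def betti {V : Type v} {X : Type w} [DecidableEq V] [LinearOrder X]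
    (Y : Set (Finset V)) (h : V → X) (k : ℕ) (S : Finset (Finset V)) : ℝ :=
  ∑ σ ∈ S, (1 - Metric.infDist (lp.single 2 σ (1 : ℂ) : lp (fun _ : Finset V => ℂ) 2)
    (harmonic Y h k) ^ 2)

/-- **A Morse inequality for `L²`-Betti numbers.** Let `Y` be a simplicial complex with a free
cocompact action of `G`, and let `h` be a height function with values in a totally ordered set on
which `G` acts by order-preserving bijections.

1. The `k`-th `L²`-Betti number of `Y` is at most the sum, over representatives `v` of the orbits
of vertices, of the dimensions of the reduced homology in degree `k - 1` of the descending links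
of `v`.
2. If the reduced homology in degree `k - 1` of all descending links vanishes, then there is no
nonzero square-summable harmonic `k`-chain. -/
theorem result (G : Type u) (V : Type v) (X : Type w) [Group G] [DecidableEq V] [MulAction G V]
    [LinearOrder X] [MulAction G X] (Y : Set (Finset V)) (h : V → X) (hY : IsComplex Y)
    (hG : IsFreeCocompact G Y) (hh : IsHeight G Y h) (k : ℕ) :
    (∀ S : Finset (Finset V), IsRepresentatives G Y k S →
      ∀ W : Finset V, (∀ v, {v} ∈ Y → ∃ g : G, g • v ∈ W) →
      ∀ d : V → ℕ, (∀ v ∈ W, LinkHomologyLE Y h v k (d v)) →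
        betti Y h k S ≤ ∑ v ∈ W, (d v : ℝ)) ∧
    ((∀ v, {v} ∈ Y → LinkHomologyLE Y h v k 0) → harmonic Y h k = {0}) := by
  classical
  have C : N309.LO.Cx G Y h :=
    ⟨hY.nonempty, hY.down, hG.inv, hG.cocompact, hG.free, hh.order, hh.equiv, hh.inj⟩
  refine ⟨?_, ?_⟩
  · rintro S ⟨hS1, _, hS3⟩ W hW d hd
    exact N309.LO.morse' C k S hS1 hS3 W hW d hd
  · intro h0
    obtain ⟨R, hR⟩ := hG.cocompact
    let W : Finset V := (R.biUnion id).filter (fun v => {v} ∈ Y)
    have hW : ∀ v, {v} ∈ Y → ∃ g : G, g • v ∈ W := by
      intro v hv
      obtain ⟨g, hg⟩ := hR {v} hv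
      have h1 : ({v} : Finset V).image (fun v => g • v) = {g • v} := Finset.image_singleton _ _
      refine ⟨g, Finset.mem_filter.2 ⟨Finset.mem_biUnion.2 ⟨_, hg, ?_⟩, ?_⟩⟩
      · rw [h1]
        exact Finset.mem_singleton_self _
      · have h2 := hG.inv g {v} hv
        rwa [h1] at h2
    have h1 := N309.LO.morse C k W hW (fun _ => 0) (fun v hv => h0 v (Finset.mem_filter.1 hv).2)
    have h2 : N309.LO.harm (N309.LO.AA C (k + 1) k) (N309.LO.AA C (k + 2) (k + 1)) = ⊥ := by
      apply W649.ZL.eq_bot_of_vd_eq_zero _
        (N309.LO.harm_inv _ _ (N309.LO.kop_eqv _ _ _) (N309.LO.kop_eqv _ _ _))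
      refine h1.trans ?_
      simp
    have h3 := N309.LO.emb_image C k
    rw [h2] at h3
    change N309.LO.Harm Y h k = {0}
    rw [← h3, Submodule.bot_coe, Set.image_singleton]
    congr 1
    ext σ
    rw [N309.LO.emb_apply]
    by_contra hne
    obtain ⟨σ', rfl⟩ : ∃ σ' : N309.LO.Sx C (k + 1), σ'.1 = σ :=
      ⟨⟨σ, N309.LO.fn_ne C (k + 1) 0 σ hne⟩, rfl⟩
    apply hne
    rw [N309.LO.fn_val]
    rfl

end Pool.Agent.Results.MP_f80465_gt.OrderedMorseInequality
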