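import Pool.Agent.N504.RS.Rel
import Pool.Agent.N496.LT.C1
import Pool.Agent.N496.LT.C2
import Pool.Agent.N496.LT.C3
import Pool.Agent.N496.LT.E1
import Pool.Agent.N496.LT.E2

/-!
# The Singer conjecture after subdividing a flag sphere away from a coloured full subcomplex

Let the flag complex of the graph `H` be a triangulation of the sphere of dimension `n - 1`, `n = 2 d` or
`n = 2 d + 1` (a real homology manifold with the real homology of the sphere, embedded in the sphere of dimension
`2 d`), and let `B` be a set of vertices such that the full subcomplex spanned by `B` is properly coloured by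
`d + 1` colours. We show that there is an iterated edge subdivision `S` of `H`, in which the full subcomplex spanned
by `B` is not changed, such that the Davis manifolds of `S` satisfy the Singer conjecture.

The quotients of the Davis complex of the right-angled Coxeter group `W S` by the torsion-free subgroups of finite
index are closed aspherical `n`-manifolds; the right-angled Coxeter group of the full subcomplex spanned by `B` is a
retract of `W S`.
-/

set_option autoImplicit false

namespace Pool.Agent.Results.MP_f80465_gt.SubdivisionsAwayFromSubcomplex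

open Module Pool.Agent.W907.SG Pool.Agent.Y132.SI Pool.Agent.R782.Bal Pool.Agent.N496.LT
open Pool.Agent.TH652.Above

/-- Let the flag complex of `H` be a real homology manifold with the real homology of the `(n-1)`-sphere, `n = 2 d` or
`n = 2 d + 1`, embedded in the unit sphere of the euclidean space of dimension `2 d + 1`, and let the full
subcomplex spanned by the set `B` of vertices be properly coloured by `d + 1` colours. Then there is an iterated
edge subdivision `S` of `H` which induces on `B` the same graph as `H` such that (1) the reduced `ℓ²`-homology of the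
Davis complex of `W S` vanishes in all degrees `i ≠ n / 2`, (2) if `n = 2 d` then `(-1)^d χ(W S) ≥ 0`, (3) for each
`ε > 0` there is a finite set `E` of nontrivial elements of `W S` such that for every subgroup `K` of finite index
which contains no conjugate of an element of `E`, and for all `i`, the `i`-th real Betti number of `K` differs by at
most `ε [W S : K]` from `0`, if `2 i ≠ n`, or from `(-1)^i χ(W S) [W S : K]`, if `2 i = n`. -/
theorem result : ∀ (d n N : ℕ) (H : SimpleGraph (Fin N)), 1 ≤ d → (n = 2 * d ∨ n = 2 * d + 1) → HSph n H →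
    ∀ f : (Fin N → ℝ) → EuclideanSpace ℝ (Fin (2 * d + 1)), ContinuousOn f (Rea H) → (∀ x ∈ Rea H, ‖f x‖ = 1) →
    Set.InjOn f (Rea H) →
    ∀ (B : Set (Fin N)) (c : Fin N → Fin (d + 1)), (∀ u ∈ B, ∀ v ∈ B, H.Adj u v → c u ≠ c v) →
    ∃ (m : ℕ) (h : N ≤ m) (S : SimpleGraph (Fin m)), Sub H S ∧ HSph n S ∧
      (∀ u ∈ B, ∀ v ∈ B, S.Adj (Fin.castLE h u) (Fin.castLE h v) ↔ H.Adj u v) ∧
      (∀ i : ℕ, 2 * i ≠ n → L2Van S i) ∧
      (n = 2 * d → 0 ≤ (-1 : ℚ) ^ d * chiW S) ∧
      ∀ ε : ℝ, 0 < ε → ∃ E : Finset (W S), (1 : W S) ∉ E ∧
        ∀ K : Subgroup (W S), K.FiniteIndex → (∀ g ∈ E, ∀ x : W S, x * g * x⁻¹ ∉ K) →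
          ∀ i : ℕ, |(finrank ℝ (HInv S K i) : ℝ) -
            (if 2 * i = n then (-1) ^ i * (chiW S : ℝ) else 0) * K.index| ≤ ε * K.index := by
  intro d n N H hd hn hS f hf hf1 hfi B c hc
  obtain ⟨m, h, S, h1, h2, h3, h4⟩ :=
    Pool.Agent.N504.RS.rel (c2 c1) c3 e1 e2 H hd hn hS f hf hf1 hfi B c hc
  have h5 : ∀ i : ℕ, 2 * i ≠ n → L2Van S i := by
    intro i hi
    refine singer_SQ h2 ?_ i (by omega)
    rw [show n / 2 + 1 = d + 1 by omega]
    exact h4
  refine ⟨m, h, S, h1, h2, h3, h5, ?_, fun ε hε => growth_free S n h5 ε hε⟩
  rintro rfl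
  exact chi_sign S fun i hi => h5 i (by omega)

end Pool.Agent.Results.MP_f80465_gt.SubdivisionsAwayFromSubcomplex
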